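import Pool.Agent.N65.GP.Defs

/-!
Project GP (helper65), subtask SM: the singularities cancel.
-/

set_option autoImplicit false

namespace Pool.Agent.N2.GP65

open Filter Topology
open Pool.Agent.N65.GP

variable {k : Subfield ℂ}

theorem continuous_F (C : Crv k) : Continuous fun z : ℂ × ℂ => C.F z.2 z.1 := by
  unfold Crv.F Fp
  fun_prop

theorem isOpen_out (R : ℝ) : IsOpen {c : ℂ | R < ‖c‖} :=
  isOpen_lt continuous_const continuous_norm

theorem cont_yb {C : Crv k} {R : ℝ} (b : Br C R) (i : Fin C.n) {c : ℂ} (hc : R < ‖c‖) :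
    ContinuousAt (b.yb i) c :=
  (b.diffY i).continuousOn.continuousAt ((isOpen_out R).mem_nhds hc)

theorem cont_xb {C : Crv k} {R : ℝ} (b : Br C R) (i : Fin C.n) {c : ℂ} (hc : R < ‖c‖) :
    ContinuousAt (b.xb i) c :=
  (b.diffX i).continuousOn.continuousAt ((isOpen_out R).mem_nhds hc)

/-- a point with a large image on the branch -/
theorem exists_c0 (hk : Dense (k : Set ℂ)) {C : Crv k} {R : ℝ} (b : Br C R) (i : Fin C.n) :
    ∃ c₀ ∈ k, R < ‖c₀‖ ∧ R < ‖b.yb i c₀‖ := by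
  have h1 := (b.limY i).norm
  have hα : 0 < ‖C.α i‖ := norm_pos_iff.2 (C.ne i)
  have h2 : ∀ᶠ c in Bornology.cobounded ℂ, ‖C.α i‖ / 2 < ‖b.yb i c / c‖ :=
    h1.eventually (lt_mem_nhds (by linarith))
  have h3 : ∀ᶠ c : ℂ in Bornology.cobounded ℂ, max R (2 * R / ‖C.α i‖) < ‖c‖ :=
    tendsto_norm_cobounded_atTop.eventually_gt_atTop _
  have h4 := h2.and h3
  rw [← comap_norm_atTop, eventually_comap, eventually_atTop] at h4
  obtain ⟨M, hM⟩ := h4
  obtain ⟨c, hc, hck⟩ := hk.inter_open_nonempty _ (isOpen_out (max M 0)) (by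
    refine ⟨((max M 0 + 1 : ℝ) : ℂ), ?_⟩
    change max M 0 < ‖((max M 0 + 1 : ℝ) : ℂ)‖
    rw [Complex.norm_real, Real.norm_eq_abs, abs_of_nonneg (by positivity)]
    linarith)
  have hcM : max M 0 < ‖c‖ := hc
  obtain ⟨h5, h6⟩ := hM ‖c‖ ((le_max_left _ _).trans hcM.le) c rfl
  have h7 : R < ‖c‖ := (le_max_left _ _).trans_lt h6
  have hc0 : 0 < ‖c‖ := b.pos.trans h7
  refine ⟨c, hck, h7, ?_⟩
  rw [norm_div, lt_div_iff₀ hc0] at h5
  have h8 : 2 * R / ‖C.α i‖ < ‖c‖ := (le_max_right _ _).trans_lt h6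
  rw [div_lt_iff₀ hα] at h8
  nlinarith

theorem t_SM : Pool.Agent.N65.GP.S_SM := by
  intro k C R b ρ β β' τ hk hρ hrel
  have hβ : ∀ i, β' i = - β i := by
    intro i
    obtain ⟨c₀, hc₀k, hc₀, hm₀⟩ := exists_c0 hk b i
    set m₀ := b.yb i c₀ with hm₀d
    have hxb : b.xb i m₀ = c₀ := b.invX i c₀ hc₀ hm₀
    have hne : (𝓝[((k : Set ℂ) \ {m₀})] m₀).NeBot :=
      mem_closure_iff_nhdsWithin_neBot.1 ((hk.sdiff_singleton m₀) m₀)
    have hle : 𝓝[((k : Set ℂ) \ {m₀})] m₀ ≤ 𝓝[≠] m₀ :=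
      nhdsWithin_mono _ (fun x hx => hx.2)
    have hle' : 𝓝[((k : Set ℂ) \ {m₀})] m₀ ≤ 𝓝 m₀ := nhdsWithin_le_nhds
    -- the regulator
    have e1 : Tendsto (fun m => ρ m c₀) (𝓝[((k : Set ℂ) \ {m₀})] m₀) (𝓝 (ρ m₀ c₀)) := by
      have h1 : ContinuousAt (fun z : ℂ × ℂ => ρ z.1 z.2) (m₀, c₀) := by
        refine hρ.continuousAt (IsOpen.mem_nhds ?_ ⟨hm₀, hc₀⟩)
        exact ((isOpen_out R).preimage continuous_fst).inter
          ((isOpen_out R).preimage continuous_snd)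
      have h2 : ContinuousAt (fun m : ℂ => (m, c₀)) m₀ := by fun_prop
      exact (ContinuousAt.comp (x := m₀) (g := fun z : ℂ × ℂ => ρ z.1 z.2) h1 h2).tendsto.mono_left
        hle'
    have e2 : ∀ j, j ≠ i → Tendsto (fun m => Real.log ‖b.yb j c₀ - m‖)
        (𝓝[((k : Set ℂ) \ {m₀})] m₀) (𝓝 (Real.log ‖b.yb j c₀ - m₀‖)) := by
      intro j hj
      have h0 : b.yb j c₀ - m₀ ≠ 0 := sub_ne_zero.2 fun h => hj (b.injY c₀ hc₀ h)
      have h1 : ContinuousAt (fun m : ℂ => Real.log ‖b.yb j c₀ - m‖) m₀ :=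
        ContinuousAt.log (by fun_prop) (norm_ne_zero_iff.2 h0)
      exact h1.tendsto.mono_left hle'
    have e3 : ∀ j, j ≠ i → Tendsto (fun m => Real.log ‖b.xb j m - c₀‖)
        (𝓝[((k : Set ℂ) \ {m₀})] m₀) (𝓝 (Real.log ‖b.xb j m₀ - c₀‖)) := by
      intro j hj
      have h0 : b.xb j m₀ - c₀ ≠ 0 := sub_ne_zero.2 fun h => hj (b.injX m₀ hm₀ (h.trans hxb.symm))
      have h1 : ContinuousAt (fun m : ℂ => Real.log ‖b.xb j m - c₀‖) m₀ :=
        ContinuousAt.log ((cont_xb b j hm₀).sub continuousAt_const).norm (norm_ne_zero_iff.2 h0)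
      exact h1.tendsto.mono_left hle'
    have hd : HasDerivAt (b.xb i) (deriv (b.xb i) m₀) m₀ :=
      (((b.diffX i).differentiableAt ((isOpen_out R).mem_nhds hm₀))).hasDerivAt
    have hd0 := b.derivX i m₀ hm₀
    have hsl : Tendsto (slope (b.xb i) m₀) (𝓝[((k : Set ℂ) \ {m₀})] m₀)
        (𝓝 (deriv (b.xb i) m₀)) := (hasDerivAt_iff_tendsto_slope.1 hd).mono_left hle
    have e4 : Tendsto (fun m => Real.log ‖slope (b.xb i) m₀ m‖) (𝓝[((k : Set ℂ) \ {m₀})] m₀)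
        (𝓝 (Real.log ‖deriv (b.xb i) m₀‖)) :=
      hsl.norm.log (norm_ne_zero_iff.2 hd0)
    have e4' : ∀ᶠ m in 𝓝[((k : Set ℂ) \ {m₀})] m₀,
        Real.log ‖b.xb i m - c₀‖ = Real.log ‖slope (b.xb i) m₀ m‖ + Real.log ‖m₀ - m‖ := by
      filter_upwards [hsl.eventually_ne hd0, hle self_mem_nhdsWithin] with m h1 h2
      have h3 : m - m₀ ≠ 0 := sub_ne_zero.2 h2
      have h4 : b.xb i m - c₀ = slope (b.xb i) m₀ m * (m - m₀) := by
        rw [slope_def_field, hxb, div_mul_cancel₀ _ h3]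
      rw [h4, norm_mul, Real.log_mul (norm_ne_zero_iff.2 h1) (norm_ne_zero_iff.2 h3),
        norm_sub_rev m m₀]
    -- the relation
    have e5 : ∀ᶠ m in 𝓝[((k : Set ℂ) \ {m₀})] m₀, ρ m c₀ =
        ∑ j, β j * Real.log ‖b.yb j c₀ - m‖ + ∑ j, β' j * Real.log ‖b.xb j m - c₀‖ + τ := by
      have h1 : ∀ᶠ m in 𝓝[((k : Set ℂ) \ {m₀})] m₀, ∀ j, j ≠ i → b.yb j c₀ ≠ m := by
        rw [eventually_all]
        intro j
        by_cases hj : j = i
        · exact Eventually.of_forall fun m h => absurd hj h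
        · have h0 : b.yb j c₀ ≠ m₀ := fun h => hj (b.injY c₀ hc₀ h)
          have : ∀ᶠ m in 𝓝 m₀, m ≠ b.yb j c₀ := isOpen_ne.mem_nhds h0.symm
          filter_upwards [hle' this] with m hm _ using hm.symm
      have h2 : ∀ᶠ m in 𝓝[((k : Set ℂ) \ {m₀})] m₀, R < ‖m‖ :=
        hle' ((isOpen_out R).mem_nhds hm₀)
      filter_upwards [h1, h2, self_mem_nhdsWithin] with m h3 h4 h5
      refine hrel m h5.1 c₀ hc₀k h4 hc₀ ?_
      rw [Ne, b.rootY c₀ hc₀]
      rintro ⟨j, hj⟩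
      by_cases hji : j = i
      · subst hji
        exact h5.2 hj
      · exact h3 j hji hj.symm
    -- the limit
    have e6 : ∀ᶠ m in 𝓝[((k : Set ℂ) \ {m₀})] m₀, (β i + β' i) * Real.log ‖m₀ - m‖ =
        ρ m c₀ - ∑ j ∈ Finset.univ.erase i, β j * Real.log ‖b.yb j c₀ - m‖ -
        ∑ j ∈ Finset.univ.erase i, β' j * Real.log ‖b.xb j m - c₀‖ - τ -
        β' i * Real.log ‖slope (b.xb i) m₀ m‖ := by
      filter_upwards [e4', e5] with m h1 h2
      rw [← Finset.add_sum_erase _ _ (Finset.mem_univ i),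
        ← Finset.add_sum_erase _ (fun j => β' j * Real.log ‖b.xb j m - c₀‖) (Finset.mem_univ i),
        h1] at h2
      rw [h2]
      ring
    have e7 : Tendsto (fun m => (β i + β' i) * Real.log ‖m₀ - m‖) (𝓝[((k : Set ℂ) \ {m₀})] m₀)
        (𝓝 (ρ m₀ c₀ - ∑ j ∈ Finset.univ.erase i, β j * Real.log ‖b.yb j c₀ - m₀‖ -
        ∑ j ∈ Finset.univ.erase i, β' j * Real.log ‖b.xb j m₀ - c₀‖ - τ -
        β' i * Real.log ‖deriv (b.xb i) m₀‖)) := by
      refine Tendsto.congr' (EventuallyEq.symm e6) ?_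
      refine ((((e1.sub ?_).sub ?_).sub tendsto_const_nhds).sub (e4.const_mul _))
      · exact tendsto_finsetSum _ fun j hj => (e2 j (Finset.ne_of_mem_erase hj)).const_mul _
      · exact tendsto_finsetSum _ fun j hj => (e3 j (Finset.ne_of_mem_erase hj)).const_mul _
    have e8 : Tendsto (fun m => Real.log ‖m₀ - m‖) (𝓝[((k : Set ℂ) \ {m₀})] m₀) atBot := by
      refine Real.tendsto_log_nhdsGT_zero.comp ?_
      rw [tendsto_nhdsWithin_iff]
      constructor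
      · have h1 : ContinuousAt (fun m : ℂ => ‖m₀ - m‖) m₀ := by fun_prop
        have h2 := h1.tendsto.mono_left hle'
        simpa using h2
      · filter_upwards [self_mem_nhdsWithin] with m hm
        exact norm_pos_iff.2 (sub_ne_zero.2 (Ne.symm hm.2))
    have e9 : β i + β' i = 0 := by
      by_contra h0
      have h1 := e7.const_mul (β i + β' i)⁻¹
      refine not_tendsto_nhds_of_tendsto_atBot e8 _ (h1.congr fun m => ?_)
      rw [← mul_assoc, inv_mul_cancel₀ h0, one_mul]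
    linarith
  refine ⟨hβ, ?_⟩
  have hkk : ∀ m ∈ k, ∀ c ∈ k, R < ‖m‖ → R < ‖c‖ → C.F c m ≠ 0 →
      ρ m c = ∑ i, β i * (Real.log ‖b.yb i c - m‖ - Real.log ‖b.xb i m - c‖) + τ := by
    intro m hm c hc hmR hcR hF
    rw [hrel m hm c hc hmR hcR hF, ← Finset.sum_add_distrib]
    congr 1
    refine Finset.sum_congr rfl fun i _ => ?_
    change β i * Real.log ‖b.yb i c - m‖ + β' i * Real.log ‖b.xb i m - c‖ = _
    rw [hβ i]
    ring
  intro m c hm hc hF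
  have hne : (𝓝[((k : Set ℂ) ×ˢ (k : Set ℂ))] (m, c)).NeBot :=
    mem_closure_iff_nhdsWithin_neBot.1 ((hk.prod hk) (m, c))
  have hle : 𝓝[((k : Set ℂ) ×ˢ (k : Set ℂ))] (m, c) ≤ 𝓝 (m, c) := nhdsWithin_le_nhds
  have hU : IsOpen {z : ℂ × ℂ | R < ‖z.1‖ ∧ R < ‖z.2‖} :=
    ((isOpen_out R).preimage continuous_fst).inter ((isOpen_out R).preimage continuous_snd)
  have f1 : Tendsto (fun z : ℂ × ℂ => ρ z.1 z.2) (𝓝[((k : Set ℂ) ×ˢ (k : Set ℂ))] (m, c))
      (𝓝 (ρ m c)) :=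
    (hρ.continuousAt (hU.mem_nhds ⟨hm, hc⟩)).tendsto.mono_left hle
  have f2 : ContinuousAt (fun z : ℂ × ℂ =>
      ∑ i, β i * (Real.log ‖b.yb i z.2 - z.1‖ - Real.log ‖b.xb i z.1 - z.2‖) + τ) (m, c) := by
    refine ContinuousAt.add ?_ continuousAt_const
    refine tendsto_finsetSum _ fun i _ => ?_
    refine ContinuousAt.mul continuousAt_const (ContinuousAt.sub ?_ ?_)
    · refine ContinuousAt.log ?_ ?_
      · refine (ContinuousAt.sub ?_ continuousAt_fst).norm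
        exact ContinuousAt.comp (x := ((m, c) : ℂ × ℂ)) (g := b.yb i) (f := Prod.snd)
          (cont_yb b i hc) continuousAt_snd
      · rw [norm_ne_zero_iff, sub_ne_zero]
        intro h
        exact hF ((b.rootY c hc m).2 ⟨i, h.symm⟩)
    · refine ContinuousAt.log ?_ ?_
      · refine (ContinuousAt.sub ?_ continuousAt_snd).norm
        exact ContinuousAt.comp (x := ((m, c) : ℂ × ℂ)) (g := b.xb i) (f := Prod.fst)
          (cont_xb b i hm) continuousAt_fst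
      · rw [norm_ne_zero_iff, sub_ne_zero]
        intro h
        exact hF ((b.rootX m hm c).2 ⟨i, h.symm⟩)
  have f3 : (fun z : ℂ × ℂ => ρ z.1 z.2) =ᶠ[𝓝[((k : Set ℂ) ×ˢ (k : Set ℂ))] (m, c)]
      (fun z : ℂ × ℂ =>
      ∑ i, β i * (Real.log ‖b.yb i z.2 - z.1‖ - Real.log ‖b.xb i z.1 - z.2‖) + τ) := by
    have h1 : ∀ᶠ z : ℂ × ℂ in 𝓝 (m, c), C.F z.2 z.1 ≠ 0 :=
      (continuous_F C).continuousAt.eventually_ne hF
    filter_upwards [hle h1, hle (hU.mem_nhds (show ((m, c) : ℂ × ℂ) ∈ _ from ⟨hm, hc⟩)),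
      self_mem_nhdsWithin] with z h2 h3 h4
    exact hkk z.1 h4.1 z.2 h4.2 h3.1 h3.2 h2
  exact tendsto_nhds_unique_of_eventuallyEq f1 (f2.tendsto.mono_left hle) f3

end Pool.Agent.N2.GP65
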